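import Mathlib

open Finset Filter Topology Pointwise

namespace Pool.Agent.Results.MP_b92640_nt.Full

def DD (U B : Finset ℕ) : Finset ℕ := image₂ (fun u b => u - b) U B

lemma finger (U B : Finset ℕ) (hB : B.Nonempty) (h : ∀ u ∈ U, ∀ b ∈ B, b ≤ u) :
    ∃ V ⊆ U, V.card * B.card ≤ 2 * (DD V B).card ∧ U.card ≤ 2 * (DD V B).card := by
  obtain ⟨V, hV, hmax⟩ := Finset.exists_max_image
    (U.powerset.filter (fun V => V.card * B.card ≤ 2 * (DD V B).card)) card ⟨∅, by simp⟩
  obtain ⟨V1, V2⟩ := mem_filter.1 hV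
  rw [mem_powerset] at V1
  refine ⟨V, V1, V2, ?_⟩
  set W := DD V B with hW
  have pw : ∀ u ∈ U, B.card ≤ 2 * (B.filter (fun b => u - b ∈ W)).card := by
    intro u hu
    by_cases huV : u ∈ V
    · have : B.filter (fun b => u - b ∈ W) = B :=
        filter_true_of_mem (fun b hb => mem_image₂_of_mem (f := fun u b => u - b) huV hb)
      rw [this]; omega
    · have c := card_filter_add_card_filter_not (s := B) (fun b => u - b ∈ W)
      by_contra hlt
      have := hmax (insert u V) (mem_filter.2 ⟨mem_powerset.2 (insert_subset hu V1), ?_⟩)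
      · rw [card_insert_of_notMem huV] at this; omega
      · have sub : W ∪ (B.filter (fun b => ¬ u - b ∈ W)).image (fun b => u - b)
            ⊆ DD (insert u V) B := by
          apply union_subset
          · exact image₂_subset_right (subset_insert _ _)
          · intro x hx
            obtain ⟨b, hb, rfl⟩ := mem_image.1 hx
            exact mem_image₂_of_mem (mem_insert_self _ _) (mem_filter.1 hb).1
        have c2 := card_le_card sub
        rw [card_union_of_disjoint, card_image_of_injOn] at c2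
        · rw [card_insert_of_notMem huV, add_mul]; omega
        · intro b hb b' hb' e
          have := h u hu b (mem_filter.1 hb).1
          have := h u hu b' (mem_filter.1 hb').1
          simp only at e; omega
        · rw [disjoint_right]
          intro x hx
          obtain ⟨b, hb, rfl⟩ := mem_image.1 hx
          exact (mem_filter.1 hb).2
  have s1 := sum_le_sum pw
  have s2 : ∑ u ∈ U, (B.filter (fun b => u - b ∈ W)).card
      = ∑ b ∈ B, (U.filter (fun u => u - b ∈ W)).card := by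
    simp only [card_filter]; exact sum_comm
  have s3 : ∀ b ∈ B, (U.filter (fun u => u - b ∈ W)).card ≤ W.card := by
    intro b hb
    apply card_le_card_of_injOn (fun u => u - b)
    · intro u hu; exact (mem_filter.1 hu).2
    · intro u hu u' hu' e
      have := h u (mem_filter.1 hu).1 b hb
      have := h u' (mem_filter.1 hu').1 b hb
      simp only at e; omega
  have s4 := sum_le_sum s3
  rw [← mul_sum, s2] at s1
  simp only [sum_const, smul_eq_mul] at s1 s4
  have := hB.card_pos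
  apply Nat.le_of_mul_le_mul_right _ this
  nlinarith

lemma hit (G : Finset ℕ) (hG : G.Nonempty) (S : Finset (Finset ℕ))
    (h : ∀ W ∈ S, W ⊆ G ∧ G.card ≤ 8 * W.card) (t : ℕ) :
    ∃ H ⊆ G, H.card ≤ t ∧ (S.filter (fun W => Disjoint W H)).card * 8 ^ t ≤ S.card * 7 ^ t := by
  induction t with
  | zero => exact ⟨∅, by simp, by simp, by simp⟩
  | succ t ih =>
    obtain ⟨H, h1, h2, h3⟩ := ih
    set T := S.filter (fun W => Disjoint W H) with hT
    have s1 : ∑ _x ∈ G, T.card ≤ ∑ x ∈ G, 8 * (T.filter (fun W => x ∈ W)).card := by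
      rw [← mul_sum]
      have : ∑ x ∈ G, (T.filter (fun W => x ∈ W)).card = ∑ W ∈ T, W.card := by
        simp only [card_filter]
        rw [sum_comm]
        apply sum_congr rfl
        intro W hW
        rw [← card_filter, filter_mem_eq_inter, inter_eq_right.2 (h W (mem_filter.1 hW).1).1]
      rw [this, mul_sum]
      have := sum_le_sum (fun W (hW : W ∈ T) => (h W (mem_filter.1 hW).1).2)
      simp only [sum_const, smul_eq_mul] at this ⊢
      rw [mul_comm]; exact this
    obtain ⟨x, hx, hx2⟩ := Finset.exists_le_of_sum_le hG s1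
    refine ⟨insert x H, insert_subset hx h1, (card_insert_le _ _).trans (by omega), ?_⟩
    have c := card_filter_add_card_filter_not (s := T) (fun W => x ∈ W)
    have c2 : (S.filter (fun W => Disjoint W (insert x H))).card
        ≤ (T.filter (fun W => ¬ x ∈ W)).card := by
      apply card_le_card
      intro W hW
      obtain ⟨a, b⟩ := mem_filter.1 hW
      rw [disjoint_insert_right] at b
      exact mem_filter.2 ⟨mem_filter.2 ⟨a, b.2⟩, b.1⟩
    have c3 : (S.filter (fun W => Disjoint W (insert x H))).card * 8 ≤ T.card * 7 := by omega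
    rw [pow_succ, pow_succ]
    nlinarith [Nat.mul_le_mul_right (8 ^ t) c3]

lemma hit2 (G : Finset ℕ) (hG : G.Nonempty) (S : Finset (Finset ℕ))
    (h : ∀ W ∈ S, W ⊆ G ∧ G.card ≤ 8 * W.card) (L : ℕ) (hL : S.card ≤ 2 ^ L) :
    ∃ H ⊆ G, H.card ≤ 6 * (L + 1) ∧ ∀ W ∈ S, ¬ Disjoint W H := by
  obtain ⟨H, h1, h2, h3⟩ := hit G hG S h (6 * (L + 1))
  refine ⟨H, h1, h2, fun W hW hd => ?_⟩
  have c : 1 ≤ (S.filter (fun W => Disjoint W H)).card :=
    card_pos.2 ⟨W, mem_filter.2 ⟨hW, hd⟩⟩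
  have a : (2 * 7 ^ 6) ^ (L + 1) ≤ (8 ^ 6) ^ (L + 1) := Nat.pow_le_pow_left (by norm_num) _
  rw [mul_pow, ← pow_mul, ← pow_mul, pow_succ] at a
  have p : 0 < 7 ^ (6 * (L + 1)) := by positivity
  have q : 0 < 2 ^ L := by positivity
  have := Nat.mul_le_mul_right (7 ^ (6 * (L + 1))) hL
  have := Nat.mul_le_mul_right (8 ^ (6 * (L + 1))) c
  nlinarith [Nat.mul_pos p q]

lemma scale (j : ℕ) : ∃ H ⊆ Ioc (4 ^ j) (4 * 4 ^ j), H.card ≤ 48 * (2 * j + 1) * 2 ^ j ∧
    ∀ B ⊆ range (4 ^ j + 1), B.card = 2 ^ j →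
      4 ^ j ≤ ((Ioc (2 * 4 ^ j) (4 * 4 ^ j)).filter (fun x => ∃ a ∈ H, ∃ b ∈ B, a + b = x)).card := by
  have e : 4 ^ j = 2 ^ j * 2 ^ j := by rw [← mul_pow]; rfl
  have K0 : 0 < 2 ^ j := by positivity
  set m := 4 ^ j with hm
  set K := 2 ^ j with hK
  have m0 : 0 < m := by positivity
  set s := min (6 * K) m with hs
  set S := (((powersetCard s (Ioc (2 * m) (4 * m))) ×ˢ (powersetCard K (range (m + 1)))).image
    (fun p => DD p.1 p.2)).filter (fun W => m ≤ 2 * W.card) with hS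
  have sub : ∀ V B : Finset ℕ, V ⊆ Ioc (2 * m) (4 * m) → B ⊆ range (m + 1) →
      DD V B ⊆ Ioc m (4 * m) := by
    intro V B hV hB x hx
    obtain ⟨u, hu, b, hb, rfl⟩ := mem_image₂.1 hx
    have := mem_Ioc.1 (hV hu)
    have := mem_range.1 (hB hb)
    rw [mem_Ioc]; omega
  have cS : S.card ≤ 2 ^ (7 * (2 * j + 1) * 2 ^ j) := by
    refine (card_filter_le _ _).trans (card_image_le.trans ?_)
    rw [card_product, card_powersetCard, card_powersetCard]
    have e2 : 2 * m = 2 ^ (2 * j + 1) := by rw [hm, pow_succ, pow_mul]; ring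
    have a1 : (Ioc (2 * m) (4 * m)).card.choose s ≤ (2 * m) ^ (6 * K) := by
      refine (Nat.choose_le_pow _ _).trans ?_
      rw [Nat.card_Ioc, show 4 * m - 2 * m = 2 * m by omega]
      exact Nat.pow_le_pow_right (by omega) (min_le_left _ _)
    have a2 : (range (m + 1)).card.choose K ≤ (2 * m) ^ K := by
      refine (Nat.choose_le_pow _ _).trans ?_
      rw [card_range]
      exact Nat.pow_le_pow_left (by omega) _
    refine (Nat.mul_le_mul a1 a2).trans (le_of_eq ?_)
    rw [← pow_add, e2, ← pow_mul]; congr 1; ring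
  obtain ⟨H, h1, h2, h3⟩ := hit2 (Ioc m (4 * m)) ⟨m + 1, by rw [mem_Ioc]; omega⟩ S (by
    intro W hW
    obtain ⟨a, b⟩ := mem_filter.1 hW
    obtain ⟨p, hp, rfl⟩ := mem_image.1 a
    obtain ⟨p1, p2⟩ := mem_product.1 hp
    refine ⟨sub _ _ (mem_powersetCard.1 p1).1 (mem_powersetCard.1 p2).1, ?_⟩
    rw [Nat.card_Ioc]; omega) _ cS
  refine ⟨H, h1, h2.trans (by nlinarith), fun B hB cB => ?_⟩
  by_contra hlt
  have c := card_filter_add_card_filter_not (s := Ioc (2 * m) (4 * m))
    (fun x => ∃ a ∈ H, ∃ b ∈ B, a + b = x)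
  rw [Nat.card_Ioc] at c
  obtain ⟨U, U1, U2⟩ := exists_subset_card_eq (n := m) (s := (Ioc (2 * m) (4 * m)).filter
    (fun x => ¬ ∃ a ∈ H, ∃ b ∈ B, a + b = x)) (by omega)
  have UI : U ⊆ Ioc (2 * m) (4 * m) := U1.trans (filter_subset _ _)
  have le : ∀ u ∈ U, ∀ b ∈ B, b ≤ u := by
    intro u hu b hb
    have := mem_Ioc.1 (UI hu)
    have := mem_range.1 (hB hb)
    omega
  obtain ⟨V, V1, V2, V3⟩ := finger U B (card_pos.1 (by omega)) le
  have cW := card_le_card (sub V B (V1.trans UI) hB)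
  rw [Nat.card_Ioc] at cW
  have cV : V.card ≤ s := by
    refine le_min ?_ (U2 ▸ card_le_card V1)
    apply Nat.le_of_mul_le_mul_right _ K0
    rw [cB] at V2
    have : 6 * K * K = 6 * m := by rw [e]; ring
    omega
  obtain ⟨V', a1, a2, a3⟩ := exists_subsuperset_card_eq V1 cV (U2 ▸ min_le_right _ _)
  apply h3 (DD V' B)
  · refine mem_filter.2 ⟨mem_image.2 ⟨(V', B), mem_product.2
      ⟨mem_powersetCard.2 ⟨a2.trans UI, a3⟩, mem_powersetCard.2 ⟨hB, cB⟩⟩, rfl⟩, ?_⟩
    have := card_le_card (show DD V B ⊆ DD V' B from image₂_subset_right a1)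
    omega
  · rw [disjoint_left]
    intro x hx hxH
    obtain ⟨u, hu, b, hb, rfl⟩ := mem_image₂.1 hx
    have := le u (a2 hu) b hb
    exact (mem_filter.1 (U1 (a2 hu))).2 ⟨u - b, hxH, b, hb, by omega⟩

lemma sumb (J : ℕ) : ∑ j ∈ range (J + 1), 48 * (2 * j + 1) * 2 ^ j ≤ 96 * (2 * J + 1) * 2 ^ J := by
  induction J with
  | zero => simp
  | succ J ih =>
    rw [sum_range_succ, pow_succ]
    have : 0 < 2 ^ J := by positivity
    nlinarith

open Classical in
theorem result : ∃ A : Set ℕ, 0 ∈ A ∧ A ≠ {0, 1} ∪ {p | p.Prime} ∧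
    Filter.Tendsto (fun n : ℕ => (((Finset.Ioc 0 n).filter (· ∈ A)).card : ℝ) / n)
      Filter.atTop (nhds 0) ∧
    ∀ B : Set ℕ, 0 ∈ B → B + B = Set.univ → 0 < schnirelmannDensity (A + B) := by
  choose H h1 h2 h3 using scale
  refine ⟨{x | x = 0 ∨ x = 1 ∨ x = 4 ∨ ∃ j, x ∈ H j}, by simp, ?_, ?_, ?_⟩
  · intro h
    have : (4 : ℕ) ∈ ({0, 1} ∪ {p | p.Prime} : Set ℕ) := by rw [← h]; simp
    simp at this
    norm_num at this
  · have t1 : Tendsto (fun J : ℕ => 200 * ((J : ℝ) ^ 1 / 2 ^ J) + 100 * ((J : ℝ) ^ 0 / 2 ^ J))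
        atTop (𝓝 (200 * 0 + 100 * 0)) :=
      ((tendsto_pow_const_div_const_pow_of_one_lt 1 one_lt_two).const_mul 200).add
        ((tendsto_pow_const_div_const_pow_of_one_lt 0 one_lt_two).const_mul 100)
    have t2 : Tendsto (Nat.log 4) atTop atTop :=
      tendsto_atTop_atTop_of_monotone Nat.log_monotone
        (fun k => ⟨4 ^ k, by rw [Nat.log_pow (by norm_num)]⟩)
    have t3 := t1.comp t2
    simp only [mul_zero, add_zero] at t3
    refine squeeze_zero' (Eventually.of_forall (fun n => by positivity)) ?_ t3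
    filter_upwards [eventually_ge_atTop 1] with n hn
    set J := Nat.log 4 n with hJ
    have l1 : 4 ^ J ≤ n := Nat.pow_log_le_self 4 (by omega)
    have l2 : n < 4 ^ (J + 1) := Nat.lt_pow_succ_log_self (by norm_num) n
    have sub : (Ioc 0 n).filter (· ∈ {x | x = 0 ∨ x = 1 ∨ x = 4 ∨ ∃ j, x ∈ H j})
        ⊆ {1, 4} ∪ (range (J + 1)).biUnion H := by
      intro x hx
      obtain ⟨a, b⟩ := mem_filter.1 hx
      rw [mem_Ioc] at a
      rcases b with b | b | b | ⟨j, hj⟩
      · omega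
      · simp [b]
      · simp [b]
      · apply mem_union_right
        refine mem_biUnion.2 ⟨j, mem_range.2 ?_, hj⟩
        have := (mem_Ioc.1 (h1 j hj)).1
        exact (Nat.pow_lt_pow_iff_right (show 1 < 4 by norm_num)).1 (by omega)
    have c := (card_le_card sub).trans (card_union_le _ _)
    have c2 := (card_biUnion_le.trans (sum_le_sum (fun j _ => h2 j))).trans (sumb J)
    have p : 0 < 2 ^ J := by positivity
    have c3 : ((Ioc 0 n).filter (· ∈ {x | x = 0 ∨ x = 1 ∨ x = 4 ∨ ∃ j, x ∈ H j})).card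
        ≤ (200 * J + 100) * 2 ^ J := by
      have : ({1, 4} : Finset ℕ).card = 2 := rfl
      nlinarith
    have c4 : (((Ioc 0 n).filter (· ∈ {x | x = 0 ∨ x = 1 ∨ x = 4 ∨ ∃ j, x ∈ H j})).card : ℝ)
        ≤ (200 * J + 100) * 2 ^ J := by exact_mod_cast c3
    have l3 : (2 : ℝ) ^ J * 2 ^ J ≤ n := by
      rw [← mul_pow]; norm_num; exact_mod_cast l1
    show _ ≤ 200 * ((J : ℝ) ^ 1 / 2 ^ J) + 100 * ((J : ℝ) ^ 0 / 2 ^ J)
    have : 200 * ((J : ℝ) ^ 1 / 2 ^ J) + 100 * ((J : ℝ) ^ 0 / 2 ^ J)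
        = (200 * J + 100) * 2 ^ J / (2 ^ J * 2 ^ J) := by field_simp
    rw [this]
    refine div_le_div₀ (by positivity) (le_trans (le_of_eq ?_) c4) (by positivity) l3
    congr
  · intro B B0 hB
    refine lt_of_lt_of_le (show (0 : ℝ) < 1 / 16 by norm_num) (le_schnirelmannDensity_iff.2 ?_)
    intro n hn
    rw [div_le_div_iff₀ (by norm_num) (by exact_mod_cast hn), one_mul]
    norm_cast
    by_cases h4 : n < 4
    · have : 0 < ((Ioc 0 n).filter (· ∈ {x | x = 0 ∨ x = 1 ∨ x = 4 ∨ ∃ j, x ∈ H j} + B)).card :=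
        card_pos.2 ⟨1, mem_filter.2 ⟨mem_Ioc.2 ⟨by omega, by omega⟩, ⟨1, by simp, 0, B0, rfl⟩⟩⟩
      omega
    · obtain ⟨j, hj⟩ : ∃ j, Nat.log 4 n = j + 1 :=
        ⟨Nat.log 4 n - 1, by have := Nat.log_pos (show 1 < 4 by norm_num) (not_lt.1 h4); omega⟩
      have l1 : 4 ^ (j + 1) ≤ n := hj ▸ Nat.pow_log_le_self 4 (by omega)
      have l2 : n < 4 ^ (j + 1 + 1) := hj ▸ Nat.lt_pow_succ_log_self (by norm_num) n
      set C := (range (4 ^ j + 1)).filter (· ∈ B) with hC
      have cC : 2 ^ j ≤ C.card := by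
        have sub : range (4 ^ j + 1) ⊆ image₂ (· + ·) C C := by
          intro x hx
          obtain ⟨a, ha, b, hb, e⟩ : x ∈ B + B := hB ▸ Set.mem_univ x
          rw [mem_range] at hx
          simp only at e
          exact mem_image₂.2 ⟨a, mem_filter.2 ⟨mem_range.2 (by omega), ha⟩, b,
            mem_filter.2 ⟨mem_range.2 (by omega), hb⟩, e⟩
        have := (card_le_card sub).trans (card_image₂_le _ _ _)
        rw [card_range, show (4 : ℕ) ^ j = 2 ^ j * 2 ^ j by rw [← mul_pow]; rfl] at this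
        by_contra hh
        have := Nat.mul_le_mul (not_le.1 hh).le (not_le.1 hh).le
        omega
      obtain ⟨D, D1, D2⟩ := exists_subset_card_eq cC
      have := h3 j D (D1.trans (filter_subset _ _)) D2
      have c : ((Ioc (2 * 4 ^ j) (4 * 4 ^ j)).filter (fun x => ∃ a ∈ H j, ∃ b ∈ D, a + b = x)).card
          ≤ ((Ioc 0 n).filter (· ∈ {x | x = 0 ∨ x = 1 ∨ x = 4 ∨ ∃ j, x ∈ H j} + B)).card := by
        apply card_le_card
        intro x hx
        obtain ⟨a1, a, ha, b, hb, e⟩ := mem_filter.1 hx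
        rw [mem_Ioc] at a1
        rw [pow_succ] at l1
        exact mem_filter.2 ⟨mem_Ioc.2 ⟨by omega, by omega⟩,
          ⟨a, Or.inr (Or.inr (Or.inr ⟨j, ha⟩)), b, (mem_filter.1 (D1 hb)).2, e⟩⟩
      rw [pow_succ, pow_succ] at l2
      omega

end Pool.Agent.Results.MP_b92640_nt.Full
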